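import Mathlib

/-!
# SO-1 (MP_eb8c5c_co): difference constraints without negative simple cycles have a solution

`Seg E L a b`: the list `L` of edges, read from its last entry to its first one, is a walk from `b` to `a`.
The potential of a vertex is the infimum of the weights of the simple walks which end there.
-/

set_option autoImplicit false

namespace Pool.Agent.Helper28.SO

section potential

variable {κ : Type*}

/-- walks, the last edge is the head of the list -/
private def Seg (E : Finset (κ × κ × ℝ)) : List (κ × κ × ℝ) → κ → κ → Prop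
  | [], a, b => a = b
  | f :: L, a, b => f ∈ E ∧ f.2.1 = a ∧ Seg E L f.1 b

private theorem Seg.mem {E : Finset (κ × κ × ℝ)} {L : List (κ × κ × ℝ)} {a b : κ}
    (h : Seg E L a b) : ∀ f ∈ L, f ∈ E := by
  induction L generalizing a with
  | nil => intro f hf; simp at hf
  | cons g L ih =>
    intro f hf
    rcases List.mem_cons.1 hf with rfl | hf
    · exact h.1
    · exact ih h.2.2 f hf

private theorem Seg.start {E : Finset (κ × κ × ℝ)} {L : List (κ × κ × ℝ)} {a b : κ}
    (h : Seg E L a b) : b = a ∨ b ∈ L.map (fun f => f.1) := by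
  induction L generalizing a with
  | nil => exact Or.inl (Eq.symm h)
  | cons g L ih =>
    right
    rw [List.map_cons, List.mem_cons]
    exact ih h.2.2

private theorem Seg.split {E : Finset (κ × κ × ℝ)} {L : List (κ × κ × ℝ)} {a b c : κ}
    (h : Seg E L a c) (hb : b = a ∨ b ∈ L.map (fun f => f.1)) :
    ∃ L1 L2, L = L1 ++ L2 ∧ Seg E L1 a b ∧ Seg E L2 b c := by
  induction L generalizing a with
  | nil =>
    rcases hb with rfl | hb
    · exact ⟨[], [], rfl, rfl, h⟩
    · simp at hb
  | cons g L ih =>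
    rcases hb with rfl | hb
    · exact ⟨[], g :: L, rfl, rfl, h⟩
    · rw [List.map_cons, List.mem_cons] at hb
      obtain ⟨L1, L2, h1, h2, h3⟩ := ih h.2.2 hb
      exact ⟨g :: L1, L2, by rw [h1, List.cons_append], ⟨h.1, h.2.1, h2⟩, h3⟩

private theorem Seg.get_succ {E : Finset (κ × κ × ℝ)} {L : List (κ × κ × ℝ)} {a b : κ}
    (h : Seg E L a b) : ∀ (i : ℕ) (hi : i + 1 < L.length), (L[i + 1]).2.1 = (L[i]).1 := by
  induction L generalizing a with
  | nil => intro i hi; simp at hi
  | cons g L ih =>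
    intro i hi
    cases i with
    | zero =>
      cases L with
      | nil => simp at hi
      | cons k L => exact h.2.2.2.1
    | succ i => exact ih h.2.2 i (by simpa using hi)

private theorem Seg.get_last {E : Finset (κ × κ × ℝ)} {L : List (κ × κ × ℝ)} {g : κ × κ × ℝ}
    {a b : κ} (h : Seg E (g :: L) a b) : ((g :: L)[L.length]).1 = b := by
  induction L generalizing g a with
  | nil => exact h.2.2
  | cons k L ih => exact ih h.2.2

private def wgt (L : List (κ × κ × ℝ)) : ℝ := (L.map fun f => f.2.2).sum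

private theorem cycle_nonneg (E : Finset (κ × κ × ℝ))
    (hcyc : ∀ (m : ℕ) (p : Fin (m + 1) → κ × κ × ℝ), (∀ t, p t ∈ E) →
      (∀ t : Fin (m + 1), (p t).2.1 = (p (t + 1)).1) →
      Function.Injective (fun t => (p t).1) → 0 ≤ ∑ t, (p t).2.2)
    {L : List (κ × κ × ℝ)} {e : κ × κ × ℝ} {b : κ} (h : Seg E (e :: L) b b)
    (hn : ((e :: L).map fun f => f.1).Nodup) : 0 ≤ wgt (e :: L) := by
  have h0 := hcyc L.length (fun t => (e :: L).get (Fin.rev t)) ?_ ?_ ?_
  · have h1 : ∑ t : Fin (L.length + 1), ((e :: L).get (Fin.rev t)).2.2 =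
        ∑ t : Fin (L.length + 1), ((e :: L).get t).2.2 :=
      Equiv.sum_comp Fin.revPerm fun t => ((e :: L).get t).2.2
    rw [h1] at h0
    have h2 : ∑ t : Fin (L.length + 1), ((e :: L).get t).2.2 = wgt (e :: L) := by
      unfold wgt
      rw [← List.sum_ofFn]
      congr 1
      have h3 : (List.ofFn (e :: L).get).map (fun f => f.2.2) =
          List.ofFn (fun t => ((e :: L).get t).2.2) := List.map_ofFn
      rw [List.ofFn_get] at h3
      exact h3.symm
    rwa [h2] at h0
  · intro t
    exact h.mem _ (List.get_mem _ _)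
  · intro t
    have ht := t.isLt
    by_cases hl : (t : ℕ) = L.length
    · have e1 : t + 1 = 0 := by
        have : t = Fin.last _ := Fin.ext hl
        rw [this, Fin.last_add_one]
      have e2 : (Fin.rev t : Fin (L.length + 1)) = 0 := by
        apply Fin.ext
        rw [Fin.val_rev, hl]
        simp
      have e3 : (Fin.rev (0 : Fin (L.length + 1))) = Fin.last _ := by
        apply Fin.ext
        simp
      change ((e :: L).get (Fin.rev t)).2.1 = ((e :: L).get (Fin.rev (t + 1))).1
      rw [e1, e2, e3]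
      have h3 : ((e :: L).get (Fin.last L.length)).1 = b := h.get_last
      rw [h3]
      exact h.2.1
    · have e1 : ((t + 1 : Fin (L.length + 1)) : ℕ) = t + 1 := by
        rw [Fin.val_add_one]
        rw [if_neg]
        intro h'
        apply hl
        rw [h']
        rfl
      have h3 := h.get_succ (L.length - (t + 1)) (by simp only [List.length_cons]; omega)
      have e2 : (Fin.rev t : Fin (L.length + 1)) =
          ⟨L.length - (t + 1) + 1, by omega⟩ := by
        apply Fin.ext
        rw [Fin.val_rev]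
        simp only
        omega
      have e3 : (Fin.rev (t + 1) : Fin (L.length + 1)) = ⟨L.length - (t + 1), by omega⟩ := by
        apply Fin.ext
        rw [Fin.val_rev, e1]
        simp only
        omega
      change ((e :: L).get (Fin.rev t)).2.1 = ((e :: L).get (Fin.rev (t + 1))).1
      rw [e2, e3]
      exact h3
  · intro s t hst
    have h1 : ((e :: L).map fun f => f.1).get ⟨(Fin.rev s : Fin (L.length + 1)), by simp⟩ =
        ((e :: L).map fun f => f.1).get ⟨(Fin.rev t : Fin (L.length + 1)), by simp⟩ := by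
      rw [List.get_eq_getElem, List.get_eq_getElem, List.getElem_map, List.getElem_map]
      exact hst
    have h2 := (List.nodup_iff_injective_get.1 hn) h1
    rw [Fin.mk.injEq] at h2
    exact Fin.rev_injective (Fin.ext h2)

/-- simple walks ending at `b` -/
private def Simp (E : Finset (κ × κ × ℝ)) (L : List (κ × κ × ℝ)) (b : κ) : Prop :=
  (∃ c, Seg E L b c) ∧ (b :: L.map fun f => f.1).Nodup

private theorem wgt_ge [DecidableEq κ] (E : Finset (κ × κ × ℝ)) {L : List (κ × κ × ℝ)} {b : κ}
    (h : Simp E L b) : -∑ e ∈ E, |e.2.2| ≤ wgt L := by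
  classical
  obtain ⟨⟨c, hc⟩, hn⟩ := h
  have h1 : L.Nodup := List.Nodup.of_map _ (List.nodup_cons.1 hn).2
  have h2 : wgt L = ∑ e ∈ L.toFinset, e.2.2 := by
    unfold wgt
    exact (List.sum_toFinset _ h1).symm
  have h3 : L.toFinset ⊆ E := by
    intro e he
    exact hc.mem e (List.mem_toFinset.1 he)
  have h4 : ∑ e ∈ L.toFinset, |e.2.2| ≤ ∑ e ∈ E, |e.2.2| :=
    Finset.sum_le_sum_of_subset_of_nonneg h3 fun e _ _ => abs_nonneg _
  have h5 : |∑ e ∈ L.toFinset, e.2.2| ≤ ∑ e ∈ L.toFinset, |e.2.2| := Finset.abs_sum_le_sum_abs _ _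
  rw [h2]
  have h6 := neg_abs_le (∑ e ∈ L.toFinset, e.2.2)
  linarith

end potential

/-- SO-1. -/
theorem potential_le {κ : Type*} [Fintype κ] [DecidableEq κ] (E : Finset (κ × κ × ℝ))
    (hcyc : ∀ (m : ℕ) (p : Fin (m + 1) → κ × κ × ℝ), (∀ t, p t ∈ E) →
      (∀ t : Fin (m + 1), (p t).2.1 = (p (t + 1)).1) →
      Function.Injective (fun t => (p t).1) → 0 ≤ ∑ t, (p t).2.2) :
    ∃ α : κ → ℝ, ∀ e ∈ E, α e.2.1 - α e.1 ≤ e.2.2 := by
  have hbdd : ∀ b : κ, BddBelow {r | ∃ L, Simp E L b ∧ wgt L = r} := by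
    intro b
    refine ⟨-∑ e ∈ E, |e.2.2|, ?_⟩
    rintro r ⟨L, hL, rfl⟩
    exact wgt_ge E hL
  have hne : ∀ b : κ, {r | ∃ L, Simp E L b ∧ wgt L = r}.Nonempty := by
    intro b
    refine ⟨0, [], ⟨⟨b, rfl⟩, by simp⟩, by simp [wgt]⟩
  refine ⟨fun b => sInf {r | ∃ L, Simp E L b ∧ wgt L = r}, ?_⟩
  rintro ⟨a, b, w⟩ he
  have key : ∀ L, Simp E L a → sInf {r | ∃ L, Simp E L b ∧ wgt L = r} ≤ wgt L + w := by
    intro L hL
    obtain ⟨⟨c, hc⟩, hn⟩ := hL
    by_cases hb : b = a ∨ b ∈ L.map (fun f => f.1)
    · obtain ⟨L1, L2, hL12, h1, h2⟩ := hc.split hb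
      subst hL12
      rw [List.map_append] at hn
      have hn1 := List.nodup_cons.1 hn
      have hn2 := List.nodup_append.1 hn1.2
      have hcyc' : Seg E ((a, b, w) :: L1) b b := ⟨he, rfl, h1⟩
      have h3 : 0 ≤ wgt ((a, b, w) :: L1) := by
        refine cycle_nonneg E hcyc hcyc' ?_
        rw [List.map_cons, List.nodup_cons]
        refine ⟨?_, hn2.1⟩
        intro h
        exact hn1.1 (List.mem_append_left _ h)
      have h4 : Simp E L2 b := by
        refine ⟨⟨c, h2⟩, ?_⟩
        rw [List.nodup_cons]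
        refine ⟨?_, hn2.2.1⟩
        intro h
        rcases h1.start with h5 | h5
        · rw [h5] at h
          exact hn1.1 (List.mem_append_right _ h)
        · exact hn2.2.2 b h5 b h rfl
      have h5 : sInf {r | ∃ L, Simp E L b ∧ wgt L = r} ≤ wgt L2 := csInf_le (hbdd b) ⟨L2, h4, rfl⟩
      have h6 : wgt (L1 ++ L2) + w = wgt ((a, b, w) :: L1) + wgt L2 := by
        unfold wgt
        rw [List.map_append, List.sum_append, List.map_cons, List.sum_cons]
        ring
      linarith
    · have h1 : Simp E ((a, b, w) :: L) b := by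
        refine ⟨⟨c, he, rfl, hc⟩, ?_⟩
        rw [List.map_cons, List.nodup_cons]
        refine ⟨?_, hn⟩
        intro h
        exact hb (List.mem_cons.1 h)
      have h2 : wgt L + w = wgt ((a, b, w) :: L) := by
        unfold wgt
        rw [List.map_cons, List.sum_cons]
        ring
      rw [h2]
      exact csInf_le (hbdd b) ⟨_, h1, rfl⟩
  have h1 : sInf {r | ∃ L, Simp E L b ∧ wgt L = r} - w ≤ sInf {r | ∃ L, Simp E L a ∧ wgt L = r} := by
    apply le_csInf (hne a)
    rintro r ⟨L, hL, rfl⟩
    have := key L hL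
    linarith
  change sInf {r | ∃ L, Simp E L b ∧ wgt L = r} - sInf {r | ∃ L, Simp E L a ∧ wgt L = r} ≤ w
  linarith

end Pool.Agent.Helper28.SO
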